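import Pool.Agent.T2h79.XM.Crit
import Pool.Agent.T2h79.XM.Z.Iso

/-!
# The elementary form of the second criterion
-/

set_option autoImplicit false
set_option linter.unusedVariables false
set_option linter.unusedSectionVars false

namespace Pool.Agent.T2h77X

open Finset
open Pool.Agent.T2h79.XM Pool.Agent.T2h79.XM.Z
open Pool.Agent.Y703.CQ (nr)
open Pool.Agent.N973.ND (uu)
open Pool.Agent.N916.GB (Po sy Vt Gd z2 z2_add_self z2_sq nr_recip z2_eq_of_add)
open Pool.Agent.N848.Q hiding star

open Pool.Agent.N848.Q renaming star → st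

open scoped Classical

/-- the square condition modulo five -/
lemma sq5 {c : ℤ} (h : c.natAbs % 5 ≠ 0) :
    IsSquare (c : ZMod 5) ↔ c.natAbs % 5 = 1 ∨ c.natAbs % 5 = 4 := by
  have key : ∀ d : ℕ, (IsSquare ((d : ℕ) : ZMod 5) ↔ IsSquare ((d % 5 : ℕ) : ZMod 5)) := by
    intro d
    rw [ZMod.natCast_mod]
  have hneg : ∀ z : ZMod 5, IsSquare (-z) ↔ IsSquare z := by decide
  have h1 : IsSquare (c : ZMod 5) ↔ IsSquare ((c.natAbs : ℕ) : ZMod 5) := by
    rcases Int.natAbs_eq c with h2 | h2
    · rw [h2]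
      simp only [Int.natAbs_natCast, Int.cast_natCast]
    · rw [h2]
      simp only [Int.natAbs_neg, Int.natAbs_natCast, Int.cast_neg, Int.cast_natCast]
      exact hneg _
  rw [h1, key]
  have h5 : c.natAbs % 5 < 5 := Nat.mod_lt _ (by norm_num)
  generalize c.natAbs % 5 = e at h h5
  interval_cases e
  · exact absurd rfl h
  · decide
  · decide
  · decide
  · decide

/-- the elementary condition for the second class -/
def Second (m : ℕ) : Prop := ∀ a b : ℤ, a * b = -(m : ℤ) → a % 4 = 1 →
  (m % 4 ≠ 3 → (a % 8 = 1 ↔ IsSquare (a : ZMod 5))) →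
  (∀ q : ℕ, q.Prime → q ≠ 2 →
    (((q : ℤ) ∣ b → (IsSquare (a : ZMod q) ↔ (q % 3 = 2 → IsSquare (a : ZMod 5)))) ∧
     ((q : ℤ) ∣ a → (IsSquare (b : ZMod q) ↔ (q % 3 = 2 → IsSquare (a : ZMod 5)))))) →
  a = 1 ∨ b = 1

/-- the primes `3` modulo `4` -/
lemma second_of_prime {p : ℕ} (hp : p.Prime) (h4 : p % 4 = 3) : Second p := by
  intro a b hab ha _ _
  have h1 : a.natAbs * b.natAbs = p := by
    rw [← Int.natAbs_mul, hab, Int.natAbs_neg, Int.natAbs_natCast]
  rcases (Nat.prime_mul_iff (a := a.natAbs) (b := b.natAbs)).1 (h1 ▸ hp) with ⟨_, h3⟩ | ⟨_, h3⟩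
  · right
    rcases Int.natAbs_eq b with h5 | h5
    · rw [h5, h3]; rfl
    · exfalso
      rw [h5, h3] at hab
      have h6 : a = (p : ℤ) := by push_cast at hab; linarith
      omega
  · left
    rcases Int.natAbs_eq a with h5 | h5
    · rw [h5, h3]; rfl
    · exfalso
      rw [h3] at h5
      omega

/-- the condition implies that the changed system is good -/
theorem gz_of_second {m n : ℕ} {t : Bool} {r s : ZMod 2} (hm : Squarefree m) (hp : Par m n t r s)
    (hm5 : m % 5 = 1 ∨ m % 5 = 4) (hC : Second m) : Gz t r s n.primeFactors := by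
  obtain ⟨hmn, h4, hok, hok'⟩ := hp
  have hn : Squarefree n := by
    rw [hmn] at hm
    split_ifs at hm
    · exact hm.squarefree_of_dvd (dvd_mul_left _ _)
    · exact hm
  set S := n.primeFactors with hSdef
  have hS : ∀ p ∈ S, Po p := po_of (odd_of h4)
  have hM : Dl r s * ∏ p ∈ S, st p = -(m : ℤ) := by
    have := M_of (r := r) hn h4
    rwa [← hmn] at this
  -- the sum of the symbols at five
  have hm50 : m % 5 ≠ 0 := by omega
  have hS5 : ∀ p ∈ S, p % 5 ≠ 0 ∧ p ≠ 2 := by
    intro p hp
    refine ⟨fun h => ?_, (hS p hp).2⟩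
    have h1 : 5 ∣ n := (Nat.dvd_of_mod_eq_zero h).trans (Nat.dvd_of_mem_primeFactors hp)
    have h2 : 5 ∣ m := by
      rw [hmn]
      split_ifs
      · exact h1.mul_left _
      · exact h1
    omega
  have hB : ∑ p ∈ S, be r p = r := by
    have h1 := prod_five (r := r) S hS5
    rw [hSdef, Nat.prod_primeFactors_of_squarefree hn, ← hSdef] at h1
    rcases z2 r with hr | hr
    · rw [hr] at hmn h1 ⊢
      rw [if_neg (by decide)] at hmn
      rcases h1 with ⟨h1, h2⟩ | ⟨h1, h2⟩
      · exact h1
      · exfalso; omega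
    · rw [hr] at hmn h1 ⊢
      rw [if_pos rfl] at hmn
      rcases h1 with ⟨h1, h2⟩ | ⟨h1, h2⟩
      · exfalso; omega
      · exact h1
  have hB0 : ∑ q ∈ Vt t S, be r q = 0 := sum_be hS hok hB
  intro x hx
  -- normalization
  set c : ZMod 2 := if t = true then x 2 else 0 with hc
  set T := S.filter fun p => x p + c = 1 with hT
  have hTS : T ⊆ S := filter_subset _ _
  have h2T : (2 : ℕ) ∉ T := fun h => (hS 2 (hTS h)).2 rfl
  have hind : ∀ p ∈ Vt t S, (if p ∈ T then (1 : ZMod 2) else 0) = x p + c := by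
    intro p hp
    rcases mem_Vt.1 hp with ⟨ht, rfl⟩ | hp
    · rw [if_neg h2T, hc, if_pos ht, z2_add_self]
    · by_cases h : x p + c = 1
      · rw [if_pos (mem_filter.2 ⟨hp, h⟩), h]
      · have h5 : p ∉ T := fun h' => h (mem_filter.1 h').2
        rw [if_neg h5, (z2 _).resolve_right h]
  -- the sum of the additional terms
  have hadd : ∀ q ∈ Vt t S, ∑ p ∈ Vt t S, ((if p ∈ T then (1 : ZMod 2) else 0) +
      (if q ∈ T then 1 else 0)) * (al q * be r p) = al q * ∑ p ∈ T, be r p := by
    intro q hq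
    have e1 : ∀ p, ((if p ∈ T then (1 : ZMod 2) else 0) + (if q ∈ T then 1 else 0)) *
        (al q * be r p) = al q * (if p ∈ T then be r p else 0) +
          (al q * (if q ∈ T then 1 else 0)) * be r p := by
      intro p
      split_ifs <;> ring
    rw [sum_congr rfl fun p _ => e1 p, sum_add_distrib, ← mul_sum, ← mul_sum, hB0, mul_zero,
      add_zero]
    congr 1
    rw [sum_Vt hS, if_neg h2T]
    have e : (if t = true then (0 : ZMod 2) else 0) = 0 := by split_ifs <;> rfl
    rw [e, zero_add, ← sum_sdiff hTS, sum_eq_zero (s := S \ T) fun p hp => by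
      rw [if_neg (mem_sdiff.1 hp).2], zero_add]
    exact sum_congr rfl fun p hp => by rw [if_pos hp]
  have hrow : ∀ q ∈ Vt t S, ∑ p ∈ Vt t S,
      ((if p ∈ T then (1 : ZMod 2) else 0) + (if q ∈ T then 1 else 0)) * sy r s q p =
      al q * ∑ p ∈ T, be r p := by
    intro q hq
    have h1 : ∑ p ∈ Vt t S, ((if p ∈ T then (1 : ZMod 2) else 0) +
        (if q ∈ T then 1 else 0)) * sz r s q p = 0 := by
      refine Eq.trans (sum_congr rfl fun p hp => ?_) (hx q hq)
      rw [hind p hp, hind q hq]
      congr 1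
      linear_combination c * two0
    have h2 : ∑ p ∈ Vt t S, ((if p ∈ T then (1 : ZMod 2) else 0) +
        (if q ∈ T then 1 else 0)) * sz r s q p =
        ∑ p ∈ Vt t S, ((if p ∈ T then (1 : ZMod 2) else 0) +
          (if q ∈ T then 1 else 0)) * sy r s q p + al q * ∑ p ∈ T, be r p := by
      rw [← hadd q hq, ← sum_add_distrib]
      refine sum_congr rfl fun p _ => ?_
      unfold sz
      ring
    rw [h2] at h1
    exact z2_eq_of_add h1
  -- the number `a` modulo five
  set B := ∑ p ∈ T, be r p with hBdef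
  have ha5 : IsSquare (((∏ p ∈ T, st p : ℤ)) : ZMod 5) ↔ B = 0 := by
    have h1 := prod_five (r := r) T fun p hp => hS5 p (hTS hp)
    rw [← hBdef] at h1
    have h2 : (∏ p ∈ T, st p).natAbs = ∏ p ∈ T, p := prod_star_natAbs T
    have h3 : (∏ p ∈ T, st p).natAbs % 5 ≠ 0 := by
      rw [h2]
      rcases h1 with ⟨_, h1⟩ | ⟨_, h1⟩ <;> omega
    rw [sq5 h3, h2]
    rcases h1 with ⟨h1, h4⟩ | ⟨h1, h4⟩
    · exact ⟨fun _ => h1, fun _ => h4⟩
    · constructor
      · intro h5
        omega
      · intro h5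
        rw [h5] at h1
        exact absurd h1 (by decide)
  have hal : ∀ q : ℕ, (al q * B = 0 ↔ (q % 3 = 2 → IsSquare (((∏ p ∈ T, st p : ℤ)) : ZMod 5))) := by
    intro q
    rw [ha5]
    unfold al
    by_cases h : q % 3 = 2
    · rw [if_pos h, one_mul]
      exact ⟨fun h1 _ => h1, fun h1 => h1 h⟩
    · rw [if_neg h, zero_mul]
      exact ⟨fun _ h1 => absurd h1 h, fun _ => rfl⟩
  have hab : (∏ p ∈ T, st p) * (Dl r s * ∏ p ∈ S \ T, st p) = -(m : ℤ) := by
    rw [← hM, ← prod_sdiff hTS]
    ring
  have h8 := prod_star_mod T fun p hp => hS p (hTS hp)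
  have hone : ∀ U ⊆ S, ∀ d : ℤ, d * ∏ p ∈ U, st p = 1 → U = ∅ := by
    intro U hU d h
    by_contra hne
    obtain ⟨p₀, hp₀⟩ := Finset.nonempty_iff_ne_empty.2 hne
    have h4 : (p₀ : ℤ) ∣ 1 := by
      rw [← h]
      exact (star_dvd_prod hp₀).mul_left _
    have h5 := (hS p₀ (hU hp₀)).1.one_lt
    rw [Int.natCast_dvd] at h4
    exact h5.ne' (Nat.dvd_one.1 h4)
  rcases hC _ _ hab (by split_ifs at h8 <;> omega) (by
      intro hm4
      have ht : t = true := by
        by_contra ht
        obtain ⟨hr, hs⟩ := hok (by simpa using ht)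
        rw [hr, if_neg (by decide)] at hmn
        rw [hs, if_pos rfl] at h4
        omega
      have h1 := hrow 2 (mem_Vt.2 (Or.inl ⟨ht, rfl⟩))
      rw [row_two hS hTS, al2v, one_mul] at h1
      rw [h1] at h8
      rw [ha5]
      by_cases hB' : B = 0
      · rw [if_pos hB'] at h8
        exact ⟨fun _ => hB', fun _ => h8⟩
      · rw [if_neg hB'] at h8
        constructor
        · intro h; omega
        · intro h; exact absurd h hB') (by
      intro q hq hq2
      have hqP : Po q := ⟨hq, hq2⟩
      constructor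
      · intro h
        rcases (Nat.prime_iff_prime_int.1 hq).dvd_or_dvd h with h | h
        · exact absurd h (not_dvd_Dl hqP)
        · have hqS : q ∈ S \ T := by
            by_contra hcon
            exact not_dvd_prod_star hqP _ (fun p hp => hS p (mem_sdiff.1 hp).1) hcon h
          have h4 := hrow q (mem_Vt.2 (Or.inr (mem_sdiff.1 hqS).1))
          rw [row_eq hS hok hTS (mem_sdiff.1 hqS).1, if_neg (mem_sdiff.1 hqS).2] at h4
          rw [← hal q, ← h4, ns_zero]
      · intro h
        have hqT : q ∈ T := by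
          by_contra hcon
          exact not_dvd_prod_star hqP _ (fun p hp => hS p (hTS hp)) hcon h
        have h4 := hrow q (mem_Vt.2 (Or.inr (hTS hqT)))
        rw [row_eq hS hok hTS (hTS hqT), if_pos hqT] at h4
        rw [← hal q, ← h4, ns_zero]) with h | h
  · have h1 : T = ∅ := hone T hTS 1 (by rw [one_mul]; exact h)
    intro p hp q hq
    have h2 := hind p hp
    have h3 := hind q hq
    rw [h1, if_neg (notMem_empty _)] at h2 h3
    exact add_right_cancel (h2.symm.trans h3)
  · have h1 : S \ T = ∅ := hone _ sdiff_subset _ h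
    rw [h1, prod_empty, mul_one] at h
    have ht : ¬ t = true := by
      intro ht
      rcases z2 r with hr | hr <;> rcases z2 s with hs | hs
      · rcases hok' ht with h5 | h5
        · exact h5 hr
        · exact h5 hs
      · rw [hr, hs] at h
        unfold Dl at h
        rw [if_neg (by decide), if_pos rfl] at h
        norm_num at h
      · rw [hr, hs] at h
        unfold Dl at h
        rw [if_pos rfl, if_neg (by decide)] at h
        norm_num at h
      · rw [hr, hs] at h
        unfold Dl at h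
        rw [if_pos rfl, if_pos rfl] at h
        norm_num at h
    have hT' : ∀ p ∈ Vt t S, p ∈ T := by
      intro p hp
      rcases mem_Vt.1 hp with ⟨h, _⟩ | hp
      · exact absurd h ht
      · by_contra hcon
        have : p ∈ S \ T := mem_sdiff.2 ⟨hp, hcon⟩
        rw [h1] at this
        exact absurd this (notMem_empty _)
    intro p hp q hq
    have h2 := hind p hp
    have h3 := hind q hq
    rw [if_pos (hT' p hp)] at h2
    rw [if_pos (hT' q hq)] at h3
    exact add_right_cancel (h2.symm.trans h3)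

/-- **The elementary form of the second criterion.** -/
theorem second_criterion {m : ℕ} (hm : Squarefree m) (hm1 : m ≠ 1) (hm3 : m % 3 = 1)
    (hm5 : m % 5 = 1 ∨ m % 5 = 4) (hC : Second m) (K : Type) [Field K] [NumberField K]
    (h2 : Module.finrank ℚ K = 2) (s : K) (hs : s ^ 2 = -(m : K)) :
    Finite (X015 K).toAffine.Point := by
  obtain ⟨n, t, r, s', hp⟩ := par_exists hm
  exact criterionz hm hm1 hp hm3 hm5 (gz_of_second hm hp hm5 hC) K h2 s hs

end Pool.Agent.T2h77X
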